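import Pool.Agent.H76.FF.Defs

/-! Module [Trick]: cyclic coverings branched along general fibres. -/

namespace Pool.Agent.H76.FF

variable {l b : ℕ}

section Cover

variable {C : Coh} {k M : ℕ} {x : C.H 1 1 (-k)} {s : C.H 0 k M}

/-- `H^q(D_(k+1), O(m D) ⊗ (m / M) x) → H^q(D, O(m D))` is onto for `-M < m ≤ 0` -/
lemma Coh.Cover.onto_rD (c : C.Cover k M x s) (q : ℕ) (m : ℤ) (h1 : -(M : ℤ) < m) (h2 : m ≤ 0)
    (w : C.H q 1 m) : ∃ u, C.rD q k m (((m : ℂ) / M) • x) u = w := by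
  obtain ⟨y, rfl⟩ := c.e_onto q m w h1 h2
  obtain ⟨a, rfl⟩ := c.dubois q y
  exact ⟨c.e q m (c.f q a), (c.e_g q m _ h1 h2).symm⟩

lemma Coh.Cover.inj_iT (c : C.Cover k M x s) (hC : C.Exact l) (hk : 1 ≤ k) (q : ℕ) (m : ℤ)
    (h1 : -(M : ℤ) < m) (h2 : m ≤ 0) :
    Function.Injective (C.iT q k m (((m : ℂ) / M) • x)) := by
  rw [← LinearMap.ker_eq_bot, LinearMap.ker_eq_bot']
  intro y hy
  rcases q with _ | q
  · exact hC.inj_iT k m _ y hk hy
  · obtain ⟨v, rfl⟩ := hC.exact_iT q k m _ y hk hy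
    obtain ⟨u, rfl⟩ := c.onto_rD q m h1 h2 v
    exact hC.exact_rD q k m _ u hk

/-- every class of degree `m = l + k + 1 - m'` extends to the twisted line bundle -/
lemma Coh.Cover.onto_rT (c : C.Cover k M x s) (hC : C.Exact l) (hk : 1 ≤ k) (q : ℕ) (hq : q ≤ 3)
    (m m' : ℤ) (hm : m + m' = l + k + 1) (h1 : -(M : ℤ) < m') (h2 : m' ≤ 0) (t : C.H q k m) :
    ∃ u, C.rT q k m (-(((m' : ℂ) / M) • x)) u = t := by
  obtain ⟨q', hq'⟩ := Nat.exists_eq_add_of_le hq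
  have hinj := c.inj_iT hC hk q' m' h1 h2
  obtain ⟨G, hG⟩ := LinearMap.exists_leftInverse_of_injective _ (LinearMap.ker_eq_bot.mpr hinj)
  obtain ⟨u, hu⟩ := hC.onto q q' k m m' (-(((m' : ℂ) / M) • x)) (((m' : ℂ) / M) • x)
    ((C.pH q q' k m m' t).comp G) hk hq'.symm hm (neg_add_cancel _)
  refine ⟨u, ?_⟩
  have h0 : C.pH q q' k m m' (C.rT q k m (-(((m' : ℂ) / M) • x)) u - t) = 0 := by
    ext y
    rw [map_sub, LinearMap.sub_apply, hC.adjoint q q' k m m' _ _ u y hk hq'.symm hm (neg_add_cancel _), hu,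
      LinearMap.comp_apply]
    have : G (C.iT q' k m' (((m' : ℂ) / M) • x) y) = y := by
      have := congrArg (fun T => T y) hG
      simpa using this
    rw [this]
    simp
  exact sub_eq_zero.mp (hC.inj q q' k m m' _ hk hq'.symm hm h0)

lemma Coh.Cover.d_eq (c : C.Cover k M x s) (hC : C.Exact l) (hk : 1 ≤ k) (q : ℕ) (hq : q ≤ 3)
    (m m' : ℤ) (hm : m + m' = l + k + 1) (h1 : -(M : ℤ) < m') (h2 : m' ≤ 0) (t : C.H q k m) :
    C.d q k m t = ((m' : ℂ) / M) • C.cup q k m x t := by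
  obtain ⟨u, rfl⟩ := c.onto_rT hC hk q hq m m' hm h1 h2 t
  have := hC.exact_rT q k m _ u hk
  rw [map_neg, LinearMap.neg_apply, map_smul, LinearMap.smul_apply] at this
  exact sub_eq_zero.mp ((sub_eq_add_neg _ _).trans this)

/-- the section extends -/
lemma Coh.Cover.extends_ (c : C.Cover k M x s) (hC : C.Exact l) (hk : 1 ≤ k)
    (hM : l + k + 1 ≤ M) : ∃ u, C.res 0 k M u = s := by
  rw [← hC.exact 0 k M s hk]
  have h1 := c.d_eq hC hk 0 (Nat.zero_le _) M ((l : ℤ) + k + 1 - M) (by ring) (by omega) (by omega) s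
  have h2 : C.d 0 k M s = - C.cup 0 k M x s := eq_neg_of_add_eq_zero_left c.ext
  have hM0 : (M : ℂ) ≠ 0 := by
    have : M ≠ 0 := by omega
    exact_mod_cast this
  have h3 : ((((l : ℤ) + k + 1 - M : ℤ) : ℂ) / M + 1) • C.cup 0 k M x s = 0 := by
    rw [add_smul, one_smul, ← h1, h2]
    abel
  have h4 : ((((l : ℤ) + k + 1 - M : ℤ) : ℂ) / M + 1) ≠ 0 := by
    have e : ((((l : ℤ) + k + 1 - M : ℤ) : ℂ) / M + 1) = ((l + k + 1 : ℕ) : ℂ) / M := by
      push_cast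
      field_simp
      ring
    rw [e]
    exact div_ne_zero (Nat.cast_ne_zero.mpr (Nat.succ_ne_zero (l + k))) hM0
  rw [h2, (smul_eq_zero.mp h3).resolve_left h4, neg_zero]

end Cover

lemma Coh.one_onto (C : Coh) (q : ℕ) (m : ℤ) (k : ℕ)
    (h : ∀ j, 1 ≤ j → j < k + 1 → ∀ t : C.H q j m, ∃ u, C.res q j m u = t) :
    ∀ y, ∃ u, C.one q m k u = y := by
  induction k with
  | zero => exact fun y => ⟨y, rfl⟩
  | succ k ih =>
    intro y
    obtain ⟨v, rfl⟩ := ih (fun j h1 h2 => h j h1 (by omega)) y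
    obtain ⟨u, rfl⟩ := h (k + 1) (by omega) (by omega) v
    exact ⟨u, rfl⟩

/-- [Trick]: if the functions extend over the general points then all classes of degree at least
`l + k + 1` extend from `D_k` to `D_(k+1)` -/
theorem Nbhd.extend (N : Nbhd l b) (k : ℕ) (hk : 1 ≤ k) (hE : ∀ j, 1 ≤ j → j < k → N.C.E l j)
    (hS : ∀ j, j < k → N.I.S j) (hL : ∀ g f, ∃ u, N.I.res 0 k 0 (N.I.pt g) u = f) : N.C.E l k := by
  obtain ⟨k, rfl⟩ : ∃ n, k = n + 1 := ⟨k - 1, by omega⟩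
  have hb := N.b_pos
  -- the sections
  have hspan : ∀ M : ℕ, b ∣ M → l + (k + 1) + 1 ≤ M →
      (N.Gn (k + 1) M).Nonempty ∧ Submodule.span ℂ (N.Gn (k + 1) M) = ⊤ := by
    intro M hbM hM
    refine N.span k M (by omega) hbM (N.C.one_onto 0 M k fun j h1 h2 t => ?_)
    exact hE j h1 h2 0 M (by omega) t
  have hsec : ∀ M : ℕ, b ∣ M → l + (k + 1) + 1 ≤ M → ∀ s ∈ N.Gn (k + 1) M,
      ∃ u, N.C.res 0 (k + 1) M u = s := by
    intro M hbM hM s hs
    obtain ⟨x, ⟨c⟩⟩ := N.cover (k + 1) M hk (by omega) hbM hS hL s hs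
    exact c.extends_ N.cex hk hM
  intro q m hm t
  by_cases hq : q ≤ 3
  · obtain ⟨j, hj⟩ := Int.eq_ofNat_of_zero_le (by omega : 0 ≤ m - (l + (k + 1 : ℕ) + 1))
    -- a large multiple of `b`
    set M : ℕ := b * (j + l + (k + 1) + 2) with hMdef
    have hMle : j + l + (k + 1) + 2 ≤ M := Nat.le_mul_of_pos_left _ hb
    have hbM : b ∣ M := Dvd.intro _ rfl
    obtain ⟨s, hs⟩ := (hspan M hbM (by omega)).1
    obtain ⟨c⟩ := N.cover_zero (k + 1) M hk (by omega) hbM s hs (hsec M hbM (by omega) s hs)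
    rw [← N.cex.exact q (k + 1) m t hk,
      c.d_eq N.cex hk q hq m (-j) (by push_cast at hj ⊢; omega) (by omega) (by omega) t, map_zero,
      LinearMap.zero_apply, smul_zero]
  · exact ⟨0, by rw [map_zero]; exact (N.cex.dim q (k + 1) m t (by omega)).symm⟩

end Pool.Agent.H76.FF
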