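import Mathlib

/-! The trick of worklog 3611, section 1: cyclic coverings branched along a general fibre. -/

namespace Pool.Agent.H31.FF

/-- linear maps between finite dimensional complex vector spaces -/
def Lin {p q : ℕ} (f : (Fin p → ℂ) → Fin q → ℂ) : Prop :=
  (∀ x y, f (x + y) = f x + f y) ∧ ∀ (t : ℂ) x, f (t • x) = t • f x

/-- linear forms -/
def Form {p : ℕ} (f : (Fin p → ℂ) → ℂ) : Prop :=
  (∀ x y, f (x + y) = f x + f y) ∧ ∀ (t : ℂ) x, f (t • x) = t * f x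

/-- The infinitesimal neighbourhoods `D_k = k D`, `k ≥ 1`, projective spaces of dimension `dim` with
the dualising sheaves `O((l + k) D)`. The space `H^q(D_k, O(m D))` is `ℂ^(h k m q)`. -/
structure Thick where
  dim : ℕ
  l : ℕ
  h : ℕ → ℤ → ℕ → ℕ
  /-- the restrictions from `D_(k+1)` to `D_k` and from `D_k` to `D` -/
  rs : ∀ k m q, (Fin (h (k + 1) m q) → ℂ) → Fin (h k m q) → ℂ
  rr : ∀ k m q, (Fin (h k m q) → ℂ) → Fin (h 1 m q) → ℂ
  /-- the connecting map `H^q(D_k, O(m D)) → H^(q+1)(D, O((m - k) D))` -/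
  d : ∀ (k : ℕ) (m : ℤ) q, (Fin (h k m q) → ℂ) → Fin (h 1 (m - k) (q + 1)) → ℂ
  /-- the product of a class of `H^1(D, O(-k D))` and a class of `H^q(D_k, O(m D))` -/
  cup : ∀ (k : ℕ) (m : ℤ) q, (Fin (h 1 (-k) 1) → ℂ) → (Fin (h k m q) → ℂ) →
    Fin (h 1 (m - k) (q + 1)) → ℂ
  /-- the duality pairing of `H^q(D_k, O(m D))` and `H^i(D_k, O(m' D))` for `m + m' = l + k` and
  `q + i = dim` -/
  pr : ∀ k m m' q i, (Fin (h k m q) → ℂ) → (Fin (h k m' i) → ℂ) → ℂ
  /-- `O_D(M D)` has no base points -/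
  Bpf : ℕ → Prop
  /-- the general sections of `O_D(M D)` -/
  Gen : ∀ (_k M : ℕ), (Fin (h 1 M 0) → ℂ) → Prop

/-- Cohomology of the neighbourhoods. -/
structure Thick.Coh (W : Thick) : Prop where
  rr_one : ∀ m q u, W.rr 1 m q u = u
  rr_succ : ∀ k m q u, 1 ≤ k → W.rr (k + 1) m q u = W.rr k m q (W.rs k m q u)
  lin_rr : ∀ k m q, Lin (W.rr k m q)
  lin_d : ∀ k m q, Lin (W.d k m q)
  exact : ∀ k m q t, 1 ≤ k → W.d k m q t = 0 → ∃ u, W.rs k m q u = t
  cup_zero : ∀ k m q t, W.cup k m q 0 t = 0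
  /-- Serre duality -/
  form_pr : ∀ k m m' q i t, Form (W.pr k m m' q i t)
  inj : ∀ (k : ℕ) (m m' : ℤ) q i t t', 1 ≤ k → m + m' = W.l + k → q + i = W.dim →
    W.pr k m m' q i t = W.pr k m m' q i t' → t = t'
  /-- there are arbitrarily large `M` for which `O_D(M D)` has no base points -/
  bpf : ∀ M0, ∃ M, M0 ≤ M ∧ W.Bpf M
  /-- the general sections contain a nonempty Zariski open set -/
  gen : ∀ k M v, W.Bpf M → ∃ u u', W.Gen k M u ∧ W.Gen k M u' ∧ v = u - u'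

/-- `s` is a section of `O(M D)` on `D_k` whose restriction to `D` is general; its divisor is the
restriction of a Cartier divisor `W'` of `D_(k+1)`, `O(W') = O(M D) ⊗ x`, where `x` is trivial on
`D_k`, and `P = O(D) ⊗ x^(1/M)`; the space `H^i(D_(k+1), P^(-j))` is `ℂ^(hT j i)`, the
space `H^q(D_(k+1), O((l + k + 1 + j) D) ⊗ x^(j/M))` is `ℂ^(hU j q)`. -/
structure Thick.Cover (W : Thick) (k M : ℕ) (s : Fin (W.h k M 0) → ℂ) where
  x : Fin (W.h 1 (-k) 1) → ℂ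
  /-- `s` lifts to a section of `O(M D) ⊗ x` on `D_(k+1)` -/
  sec : W.d k M 0 s + W.cup k M 0 x s = 0
  hT : ℕ → ℕ → ℕ
  hU : ℕ → ℕ → ℕ
  /-- the exact sequence of `0 → O_(D_k)(-(j + 1) D) → P^(-j) → O_D(-j D) → 0` -/
  io : ∀ (j : ℕ) i, (Fin (W.h k (-(j + 1)) i) → ℂ) → Fin (hT j i) → ℂ
  rT : ∀ (j : ℕ) i, (Fin (hT j i) → ℂ) → Fin (W.h 1 (-j) i) → ℂ
  del : ∀ (j : ℕ) i, (Fin (W.h 1 (-j) i) → ℂ) → Fin (W.h k (-(j + 1)) (i + 1)) → ℂ
  lin_io : ∀ j i, Lin (io j i)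
  io_zero : ∀ j v, io j 0 v = 0 → v = 0
  exact_io : ∀ j i v, io j (i + 1) v = 0 → ∃ y, del j i y = v
  exact_del : ∀ j i z, del j i (rT j i z) = 0
  /-- the cyclic covering `y^M = s` of `D` is semi log canonical, so it has Du Bois singularities and
  the functions of the covering of `D_(k+1)` have the same image in cohomology -/
  dubois : ∀ j i y, j < M → ∃ z, rT j i z = y
  /-- the restriction from `D_(k+1)` to `D_k` -/
  rU : ∀ (j : ℕ) (m : ℤ) q, (Fin (hU j q) → ℂ) → Fin (W.h k m q) → ℂ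
  /-- the classes which lift to `O(m D) ⊗ x^(j/M)` -/
  lift : ∀ (j : ℕ) (m : ℤ) q u, m = W.l + k + 1 + j →
    W.d k m q (rU j m q u) + ((j : ℂ) / M) • W.cup k m q x (rU j m q u) = 0
  /-- Serre duality on `D_(k+1)` -/
  pT : ∀ j q i, (Fin (hU j q) → ℂ) → (Fin (hT j i) → ℂ) → ℂ
  onto : ∀ j q i f, q + i = W.dim → Form f → ∃ u, pT j q i u = f
  adjoint : ∀ (j : ℕ) (m : ℤ) q i u v, m = W.l + k + 1 + j → q + i = W.dim →
    W.pr k m (-(j + 1)) q i (rU j m q u) v = pT j q i u (io j i v)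

namespace Thick

variable {W : Thick}

/-- a linear form on a subspace extends -/
lemma extend {p q : ℕ} {f : (Fin p → ℂ) → Fin q → ℂ} (hf : Lin f)
    (hi : ∀ v, f v = 0 → v = 0) {g : (Fin p → ℂ) → ℂ} (hg : Form g) :
    ∃ g' : (Fin q → ℂ) → ℂ, Form g' ∧ ∀ v, g' (f v) = g v := by
  let F : (Fin p → ℂ) →ₗ[ℂ] (Fin q → ℂ) := { toFun := f, map_add' := hf.1, map_smul' := hf.2 }
  let Gf : (Fin p → ℂ) →ₗ[ℂ] ℂ :=
    { toFun := g, map_add' := hg.1, map_smul' := fun t x => by simp [hg.2 t x] }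
  have hker : LinearMap.ker F = ⊥ := by
    rw [LinearMap.ker_eq_bot']
    exact hi
  obtain ⟨G', hG'⟩ := LinearMap.exists_leftInverse_of_injective F hker
  refine ⟨fun y => Gf (G' y), ⟨fun x y => by simp, fun t x => by simp⟩, fun v => ?_⟩
  have := congrArg (fun T => T v) hG'
  simp only [LinearMap.comp_apply, LinearMap.id_apply] at this
  change Gf (G' (F v)) = g v
  rw [this]
  rfl

/-- every class of degree at least `l + k + 1` lifts to the twisted line bundle -/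
theorem Cover.all (hC : W.Coh) {k M : ℕ} {s : Fin (W.h k M 0) → ℂ} (c : W.Cover k M s)
    (hk : 1 ≤ k) {j : ℕ} {m : ℤ} {q : ℕ} (hj : j < M) (hm : m = W.l + k + 1 + j) (hq : q ≤ W.dim)
    (t : Fin (W.h k m q) → ℂ) :
    W.d k m q t + ((j : ℂ) / M) • W.cup k m q c.x t = 0 := by
  obtain ⟨i, hi⟩ := Nat.exists_eq_add_of_le hq
  have hinj : ∀ v, c.io j i v = 0 → v = 0 := by
    intro v hv
    rcases i with _ | i
    · exact c.io_zero j v hv
    · obtain ⟨y, rfl⟩ := c.exact_io j i v hv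
      obtain ⟨z, rfl⟩ := c.dubois j i y hj
      exact c.exact_del j i z
  obtain ⟨f, hf, hfv⟩ := extend (c.lin_io j i) hinj (hC.form_pr k m (-(j + 1)) q i t)
  obtain ⟨u, hu⟩ := c.onto j q i f hi.symm hf
  have ht : c.rU j m q u = t := by
    refine hC.inj k m (-(j + 1)) q i _ _ hk (by rw [hm]; ring) hi.symm ?_
    funext v
    rw [c.adjoint j m q i u v hm hi.symm, hu, hfv]
  rw [← ht]
  exact c.lift j m q u hm

/-- the section lifts to `D_(k+1)` -/
theorem Cover.sec_zero (hC : W.Coh) {k M : ℕ} {s : Fin (W.h k M 0) → ℂ} (c : W.Cover k M s)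
    (hk : 1 ≤ k) (hM : W.l + k + 1 ≤ M) : W.d k M 0 s = 0 := by
  obtain ⟨j, hj⟩ := Nat.exists_eq_add_of_le hM
  have hjM : j < M := by omega
  have h1 := c.all hC hk (q := 0) (m := M) hjM (by rw [hj]; push_cast; ring) (Nat.zero_le _) s
  have h2 := c.sec
  have hM0 : (M : ℂ) ≠ 0 := by
    have : M ≠ 0 := by omega
    exact_mod_cast this
  have hd : W.d k M 0 s = - W.cup k M 0 c.x s := eq_neg_of_add_eq_zero_left h2
  rw [hd] at h1
  have h3 : ((j : ℂ) / M - 1) • W.cup k M 0 c.x s = 0 := by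
    rw [sub_smul, one_smul, ← h1]
    abel
  rcases smul_eq_zero.mp h3 with h4 | h4
  · exfalso
    have h5 : (j : ℂ) / M = 1 := by linear_combination h4
    rw [div_eq_one_iff_eq hM0] at h5
    have h6 : j = M := by exact_mod_cast h5
    omega
  · rw [hd, h4, neg_zero]

/-- all sections of `O(M D)` lift from `D_k` to `D_(k+1)` -/
theorem sections_lift (hC : W.Coh) {k M : ℕ} (hk : 1 ≤ k) (hM : W.l + k + 1 ≤ M) (hb : W.Bpf M)
    (hr : ∀ v, ∃ u, W.rr k M 0 u = v)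
    (hcov : ∀ s, W.Gen k M (W.rr k M 0 s) → Nonempty (W.Cover k M s))
    (t : Fin (W.h k M 0) → ℂ) : W.d k M 0 t = 0 := by
  have hgen : ∀ s, W.Gen k M (W.rr k M 0 s) → W.d k M 0 s = 0 := fun s hs =>
    (hcov s hs).some.sec_zero hC hk hM
  obtain ⟨u, u', hu, hu', huv⟩ := hC.gen k M (W.rr k M 0 t) hb
  obtain ⟨a, rfl⟩ := hr u
  have hlin := hC.lin_rr k M 0
  have hneg : ∀ x, W.rr k M 0 (-x) = - W.rr k M 0 x := fun x => by
    have := hlin.2 (-1) x
    simpa using this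
  have hb' : W.rr k M 0 (a - t) = u' := by
    rw [sub_eq_add_neg, hlin.1, hneg, huv]
    simp
  have h1 := hgen a hu
  have h2 := hgen (a - t) (by rw [hb']; exact hu')
  have hd := hC.lin_d k M 0
  have hnegd : ∀ x, W.d k M 0 (-x) = - W.d k M 0 x := fun x => by
    have := hd.2 (-1) x
    simpa using this
  have h3 : W.d k M 0 (a - t) = W.d k M 0 a - W.d k M 0 t := by
    have e : a - t = a + -t := sub_eq_add_neg a t
    have := hd.1 a (-t)
    rw [hnegd] at this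
    rw [congrArg (W.d k M 0) e, this]
    exact (sub_eq_add_neg _ _).symm
  rw [h1, h2, zero_sub] at h3
  exact neg_eq_zero.mp h3.symm

/-- all classes of degree at least `l + k + 1` lift from `D_k` to `D_(k+1)` -/
theorem classes_lift (hC : W.Coh) {k : ℕ} (hk : 1 ≤ k)
    (hcov : ∀ M0, ∃ M s, M0 ≤ M ∧ ∃ c : W.Cover k M s, c.x = 0)
    {m : ℤ} {q : ℕ} (hm : W.l + k + 1 ≤ m) (hq : q ≤ W.dim) (t : Fin (W.h k m q) → ℂ) :
    W.d k m q t = 0 := by
  obtain ⟨j, hj⟩ := Int.eq_ofNat_of_zero_le (by linarith : 0 ≤ m - (W.l + k + 1))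
  obtain ⟨M, s, hM, c, hx⟩ := hcov (j + 1)
  have := c.all hC hk (j := j) (m := m) (q := q) (by omega) (by linarith) hq t
  rw [hx, hC.cup_zero, smul_zero, add_zero] at this
  exact this

end Thick

end Pool.Agent.H31.FF
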